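import Pool.Agent.N145.SX.Stm3

/-!
The genus of the images of the fibres of the projection of `X × C` to `X` is at most one if the
traces are multiples of one function (part SX/FIB1; the first part follows
`Pool.Agent.N279.SX.FIB`).
-/

set_option autoImplicit false
set_option linter.overlappingInstances false
set_option linter.unusedSectionVars false
set_option linter.unusedVariables false
set_option maxHeartbeats 4000000
set_option synthInstance.maxHeartbeats 400000

open Polynomial FF IsDedekindDomain IntermediateField Module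

namespace Pool.Agent.N273.SX

open Pool.Agent.W603.LV Pool.Agent.W619.PQ Pool.Agent.N145.PC Pool.Agent.N145.PL
open Pool.Agent.N145.SX
open Pool.Agent.N75.LG (exists_below)
open Pool.Agent.R882.GL (trace_fib)

theorem bd_empty {X : Type} (P : X) : bd (∅ : Set X) P = 0 := by
  classical
  unfold bd
  rw [if_neg (Set.notMem_empty P)]

/-- the traces of the regular differentials of `F` are multiples of one function: then any two
regular differentials of `E` are proportional -/
theorem glo_of_line {k E F : Type} [Field k] [Field E] [Field F] [Algebra k E] [Algebra k F]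
    [Algebra E F] [IsScalarTower k E F] [CharZero k] [IsAlgClosed k] [IsFF k E] [IsFF k F]
    [FiniteDimensional E F] (D : Derivation k F F) (ξ : E) (hD : D (algebraMap E F ξ) = 1)
    (S : F) (htr : ∀ g ∈ HL D (∅ : Set (Place k F)), ∃ c : k,
      algebraMap E F (Algebra.trace E F g) = algebraMap k F c * S) : GLO k E := by
  classical
  have hD0 : D ≠ 0 := by
    intro h
    rw [h] at hD
    exact zero_ne_one hD
  have hξ : Transcendental k ξ := by
    intro halg
    have hint := halg.isIntegral
    have hdeg := IsAlgClosed.degree_eq_one_of_irreducible k (minpoly.irreducible hint)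
    obtain ⟨c, hc⟩ := minpoly.mem_range_of_degree_eq_one k ξ hdeg
    rw [← hc, ← IsScalarTower.algebraMap_apply, Derivation.map_algebraMap] at hD
    exact zero_ne_one hD
  have hξF : Transcendental k (algebraMap E F ξ) := transcendental_map hξ
  have hd0 := der_ne (k := k) (K := E)
  have hd1 := der_ne_zero hd0 hξ
  obtain ⟨DE, hDE⟩ : ∃ DE : Derivation k E E, DE = (der k E ξ)⁻¹ • der k E := ⟨_, rfl⟩
  have hDE1 : DE ξ = 1 := by
    rw [hDE, Derivation.smul_apply, smul_eq_mul, inv_mul_cancel₀ hd1]
  have hDE0 : DE ≠ 0 := by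
    intro h
    rw [h] at hDE1
    exact zero_ne_one hDE1
  obtain ⟨D2, hD2, hext2⟩ := exists_ext (E := F) DE hDE0
  have hDD : ∀ z : F, D2 z = D z := by
    refine der_ext hξF ?_
    have h1 := hext2 ξ
    rw [hDE1, map_one] at h1
    rw [hD]
    exact h1
  have hext : ∀ z : E, D (algebraMap E F z) = algebraMap E F (DE z) := fun z => by
    rw [← hDD, hext2]
  have hE0 : CharZero E := charZero_of_injective_algebraMap (algebraMap k E).injective
  have hr0 : (Module.finrank E F : k) ≠ 0 := by
    have h3 : 0 < Module.finrank E F := Module.finrank_pos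
    exact_mod_cast h3.ne'
  -- the pull-backs
  have hpull : ∀ f ∈ HL DE (∅ : Set (Place k E)),
      algebraMap E F f ∈ HL D (∅ : Set (Place k F)) := by
    intro f hf Q
    obtain ⟨q, e, hq⟩ := exists_below (E := E) Q
    have h1 := vo_over hq hDE0 hD0 hext
    have h2 := hf q
    have h3 : Q.ord (algebraMap E F f) = e * q.ord f := hq.2 f
    have h4 : (1 : ℤ) ≤ e := by exact_mod_cast hq.1
    rw [bd_empty, sub_zero] at h2 ⊢
    by_cases hf0 : f = 0
    · rw [hf0, map_zero]
      exact Ge.zero
    · have h6 := h2.resolve_left hf0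
      have h5 := mul_le_mul_of_nonneg_left h6 (by omega : (0 : ℤ) ≤ e)
      right
      rw [h1, h3]
      linarith
  -- the line
  have hline : ∀ f ∈ HL DE (∅ : Set (Place k E)), ∃ c : k,
      algebraMap E F f = algebraMap k F c * S := by
    intro f hf
    obtain ⟨c, hc⟩ := htr _ (hpull f hf)
    refine ⟨c / (Module.finrank E F : k), ?_⟩
    rw [Algebra.trace_algebraMap, nsmul_eq_mul, map_mul, map_natCast] at hc
    have h1 : (Module.finrank E F : F) ≠ 0 := by
      have h2 : algebraMap k F (Module.finrank E F : k) ≠ 0 := (_root_.map_ne_zero _).2 hr0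
      rwa [map_natCast] at h2
    rw [map_div₀, map_natCast, div_mul_eq_mul_div, ← hc, mul_div_cancel_left₀ _ h1]
  intro D1 hD1 f hf g hg
  have hu : D1 ξ ≠ 0 := der_ne_zero hD1 hξ
  have hD1E : D1 = (D1 ξ) • DE := by
    ext z
    refine der_ext hξ ?_ z
    rw [Derivation.smul_apply, smul_eq_mul, hDE1, mul_one]
  have hdiv : ∀ f ∈ HL D1 (∅ : Set (Place k E)), f / D1 ξ ∈ HL DE (∅ : Set (Place k E)) := by
    intro f hf P
    have h1 := hf P
    rw [bd_empty, sub_zero] at h1 ⊢
    have h2 : vo P D1 = P.ord (D1 ξ) + vo P DE := by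
      conv_lhs => rw [hD1E]
      exact vo_smul P hDE0 hu
    by_cases hf0 : f = 0
    · rw [hf0, zero_div]
      exact Ge.zero
    · have h6 := h1.resolve_left hf0
      right
      rw [P.ord_div hf0 hu]
      omega
  obtain ⟨a, ha⟩ := hline _ (hdiv f hf)
  obtain ⟨b, hb⟩ := hline _ (hdiv g hg)
  have hinj := (algebraMap E F).injective
  by_cases hab : a = 0 ∧ b = 0
  · refine ⟨1, 1, Or.inl one_ne_zero, ?_⟩
    have h1 : f / D1 ξ = 0 := by
      apply hinj
      rw [ha, hab.1, map_zero, zero_mul, map_zero]
    have h2 : g / D1 ξ = 0 := by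
      apply hinj
      rw [hb, hab.2, map_zero, zero_mul, map_zero]
    rw [(div_eq_zero_iff.1 h1).resolve_right hu, (div_eq_zero_iff.1 h2).resolve_right hu]
  · refine ⟨b, a, ?_, ?_⟩
    · by_contra hcon
      push Not at hcon
      exact hab ⟨hcon.2, hcon.1⟩
    · have h1 : algebraMap k E b * (f / D1 ξ) = algebraMap k E a * (g / D1 ξ) := by
        apply hinj
        rw [map_mul, map_mul, ha, hb, ← IsScalarTower.algebraMap_apply,
          ← IsScalarTower.algebraMap_apply]
        ring
      have h2 : algebraMap k E b * f = (algebraMap k E b * (f / D1 ξ)) * D1 ξ := by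
        field_simp
      have h3 : algebraMap k E a * g = (algebraMap k E a * (g / D1 ξ)) * D1 ξ := by
        field_simp
      rw [h2, h3, h1]

theorem FIB1 (hclosed : S_CLOSED) : S_FIB1 := by
  intro K _ _ hess n E C _ hsup hE hK x0 hx0 D0 hD0 E' _ t ht ξ hξM hξ hZ Ef hEf S0 htr
    Λ F _ _ _ _ _ _ _ _ _ _ _ hFF hBΛ hgenF FE hFE
  classical
  obtain ⟨hcl1, hcl2, hcl3⟩ := hclosed K n E C hsup hE hK
  have hTB : IsScalarTower E Λ F :=
    IsScalarTower.of_algebraMap_eq fun z => (hBΛ z z.2).symm
  have hΛ0 : CharZero Λ := charZero_of_injective_algebraMap (algebraMap ℂ Λ).injective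
  have hBc : CharZero E :=
    charZero_of_injective_algebraMap (algebraMap ℂ E).injective
  have htransc : ∀ z : K, ¬ IsAlgebraic E z → Transcendental Λ (algebraMap K F z) := by
    intro z hz h
    apply hz
    have h1 : IsAlgebraic E (algebraMap K F z) := h.restrictScalars E
    exact (isAlgebraic_algebraMap_iff (R := E) (algebraMap K F).injective).1 h1
  have hcl' : ∀ z : K, IsIntegral E z → ∃ y : E,
      algebraMap E K y = z := fun z hz =>
    ⟨⟨z, hcl3 z hz.isAlgebraic⟩, rfl⟩
  have hξF := htransc ξ hξ
  obtain ⟨D, hD⟩ := exists_D (k := Λ) hξF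
  have hDne : D ≠ 0 := by
    intro h
    rw [h] at hD
    exact zero_ne_one hD
  -- the derivation of the fibre
  have happ : ∀ l : Fin n, Fin.append t (fun _ : Fin 1 => ξ) l.castSucc = t l := fun l =>
    Fin.append_left t _ l
  have happ' : Fin.append t (fun _ : Fin 1 => ξ) (Fin.last n) = ξ :=
    Fin.append_right t (fun _ : Fin 1 => ξ) 0
  have hlast : ∀ z : K, D (algebraMap K F z) = algebraMap K F (Ef (Fin.last n) z) := by
    intro z
    have h1 := Pool.Agent.W73.PG.PULL.chain (L := F) _ hZ Ef hEf (D.restrictScalars ℂ) z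
    rw [Fin.sum_univ_castSucc, Finset.sum_eq_zero, zero_add] at h1
    · rw [happ'] at h1
      change D (algebraMap K F z) = D (algebraMap K F ξ) * algebraMap K F _ at h1
      rw [hD, one_mul] at h1
      exact h1
    · intro l _
      rw [happ]
      change D (algebraMap K F (t l)) * _ = 0
      rw [← hBΛ (t l) (ht l), Derivation.map_algebraMap, zero_mul]
  obtain ⟨X, hX⟩ : ∃ X, X = algebraMap K F (x0 : K) := ⟨_, rfl⟩
  have hXt : Transcendental Λ X := by
    rw [hX]
    exact htransc _ (hcl1 x0 hx0)
  have hDx : D X ≠ 0 := by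
    intro h
    obtain ⟨w, hw⟩ := const_of_der (k := Λ) hDne h
    apply hXt
    rw [hw]
    exact isAlgebraic_algebraMap w
  -- the places of the fibre
  have hψ : ∀ y : C, algebraMap C F y = algebraMap K F (y : K) := fun y => rfl
  have hgen' : IntermediateField.adjoin Λ (Set.range (algebraMap C F)) = ⊤ := by
    rw [eq_top_iff, ← hgenF, IntermediateField.adjoin_le_iff]
    rintro _ ⟨z, rfl⟩
    have h1 : E ⊔ C ≤ ((IntermediateField.adjoin Λ
        (Set.range (algebraMap C F))).restrictScalars ℂ).comap
          (IsScalarTower.toAlgHom ℂ K F) := by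
      refine sup_le (fun y hy => ?_) (fun y hy => ?_)
      · change algebraMap K F y ∈ IntermediateField.adjoin Λ (Set.range (algebraMap C F))
        rw [← hBΛ y hy]
        exact IntermediateField.algebraMap_mem _ _
      · change algebraMap K F y ∈ IntermediateField.adjoin Λ (Set.range (algebraMap C F))
        exact IntermediateField.subset_adjoin _ _ ⟨⟨y, hy⟩, rfl⟩
    exact h1 (by rw [hsup]; trivial)
  -- the traces
  obtain ⟨hfin, htrace⟩ := trace_fib (F := F) hcl' hgenF E' FE hFE
  have hessF : Algebra.EssFiniteType Λ F := hFF.ess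
  have hessE : Algebra.EssFiniteType Λ FE := Pool.Agent.TH466.QG.ess_below (K := F)
  have htrE : Algebra.trdeg Λ FE = 1 := by
    have h1 := trdeg_add_eq Λ FE (A := F)
    have h2 : Algebra.trdeg FE F = 0 := trdeg_eq_zero
    rw [h2, add_zero, hFF.trdeg] at h1
    exact h1
  have hFFE : IsFF Λ FE := ⟨hessE, htrE⟩
  have hmemFE : ∀ e : K, e ∈ E' → algebraMap K F e ∈ FE := by
    intro e he
    rw [hFE]
    exact IntermediateField.subset_adjoin _ _ ⟨e, he, rfl⟩
  have habove : Pool.Agent.N145.PL.above (k := ℂ) (F0 := C) (Λ := Λ) (E := F)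
      (∅ : Set (Place ℂ C)) = ∅ := by
    rw [Set.eq_empty_iff_forall_notMem]
    rintro Q ⟨P, hP, -⟩
    exact hP
  have hline : ∀ g ∈ HL D (∅ : Set (Place Λ F)), ∃ c : Λ,
      algebraMap FE F (Algebra.trace FE F g) = algebraMap Λ F c * algebraMap K F S0 := by
    intro g hg
    by_cases hg0 : g = 0
    · exact ⟨0, by rw [hg0, map_zero, map_zero, map_zero, zero_mul]⟩
    have hbc := Pool.Agent.N145.PL.base ℂ C Λ F hgen'
      (fun y hy => htransc _ (hcl1 y hy)) x0 hx0 D0 hD0 ∅ (fun P hP => absurd hP (Set.notMem_empty P))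
      ((D X)⁻¹ • D) (by
        rw [Derivation.smul_apply, smul_eq_mul, hψ, ← hX]
        exact inv_mul_cancel₀ hDx) (g / D X) (by
        intro Q
        right
        rw [vo_smul Q hDne (inv_ne_zero hDx), Q.ord_inv, Q.ord_div hg0 hDx, habove]
        have := (hg Q).resolve_left hg0
        linarith)
    have h9 : ∀ y : F, y ∈ Submodule.span Λ (algebraMap C F ''
        (HL D0 (∅ : Set (Place ℂ C)) : Set C)) → ∃ c : Λ,
        algebraMap FE F (Algebra.trace FE F (D X * y)) =
          algebraMap Λ F c * algebraMap K F S0 := by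
      intro y hy
      induction hy using Submodule.span_induction with
      | zero => exact ⟨0, by rw [mul_zero, map_zero, map_zero, map_zero, zero_mul]⟩
      | add u v _ _ hu hv =>
        obtain ⟨c, hc⟩ := hu
        obtain ⟨d, hd⟩ := hv
        exact ⟨c + d, by rw [mul_add, map_add, map_add, hc, hd, map_add, add_mul]⟩
      | smul a u _ hu =>
        obtain ⟨c, hc⟩ := hu
        have h10 : D X * a • u = (algebraMap Λ FE a) • (D X * u) := by
          rw [Algebra.smul_def, Algebra.smul_def, ← IsScalarTower.algebraMap_apply Λ FE F]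
          ring
        refine ⟨a * c, ?_⟩
        rw [h10, map_smul, smul_eq_mul, map_mul, hc, ← IsScalarTower.algebraMap_apply Λ FE F,
          map_mul]
        ring
      | mem y hy =>
        obtain ⟨w, hw, rfl⟩ := hy
        obtain ⟨c, hc⟩ := htr w hw
        refine ⟨algebraMap E Λ c, ?_⟩
        have h10 : D X * algebraMap C F w =
            algebraMap K F (Ef (Fin.last n) (x0 : K) * (w : K)) := by
          rw [hψ, hX, hlast, map_mul]
        have h11 := htrace (Ef (Fin.last n) (x0 : K) * (w : K))
        rw [hc, map_mul (algebraMap K F) (c : K) S0, ← hBΛ c c.2] at h11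
        rw [h10]
        exact h11
    obtain ⟨c, hc⟩ := h9 _ hbc
    rw [mul_div_cancel₀ _ hDx] at hc
    exact ⟨c, hc⟩
  exact ⟨hFFE, glo_of_line D ⟨algebraMap K F ξ, hmemFE ξ hξM⟩ hD (algebraMap K F S0) hline⟩

end Pool.Agent.N273.SX
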